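import Pool.Agent.helper88.PF.Spec

/-! Project pf (MP_0b485e_lc), row DPE: the evaluation of strings is primitive recursive. -/

set_option autoImplicit false

namespace PF

theorem DPE_pow : Primrec₂ ((· ^ ·) : ℕ → ℕ → ℕ) := Primrec₂.unpaired'.1 Nat.Primrec.pow

theorem DPE_tb {α : Type} [Primcodable α] {f g : α → ℕ} (hf : Primrec f) (hg : Primrec g) :
    Primrec (fun a => decide (tb (f a) (g a))) := by
  have h : PrimrecPred fun a => f a / 2 ^ g a % 2 = 1 :=
    Primrec.eq.comp (Primrec.nat_mod.comp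
      (Primrec.nat_div.comp hf (DPE_pow.comp (Primrec.const 2) hg)) (Primrec.const 2))
      (Primrec.const 1)
  exact h.decide.of_eq fun a => rfl

theorem DPE_stt {α : Type} [Primcodable α] {r M m ζ b x τ i : α → ℕ} (hr : Primrec r)
    (hM : Primrec M) (hm : Primrec m) (hζ : Primrec ζ) (hb : Primrec b) (hx : Primrec x)
    (hτ : Primrec τ) (hi : Primrec i) :
    Primrec (fun a => sttN (r a) (M a) (m a) (ζ a) (b a) (x a) (τ a) (i a)) := by
  have h1 : PrimrecPred fun a => i a < r a := Primrec.nat_lt.comp hi hr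
  have h2 : PrimrecPred fun a => i a < r a + M a := Primrec.nat_lt.comp hi (Primrec.nat_add.comp hr hM)
  have h3 : PrimrecPred fun a => i a < r a + M a + m a :=
    Primrec.nat_lt.comp hi (Primrec.nat_add.comp (Primrec.nat_add.comp hr hM) hm)
  have s1 : Primrec fun a => i a - r a := Primrec.nat_sub.comp hi hr
  have s2 : Primrec fun a => i a - r a - M a := Primrec.nat_sub.comp s1 hM
  have s3 : Primrec fun a => i a - r a - M a - m a := Primrec.nat_sub.comp s2 hm
  exact Primrec.ite h1 (DPE_tb hζ hi) (Primrec.ite h2 (DPE_tb hb s1)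
    (Primrec.ite h3 (DPE_tb hx s2) (DPE_tb hτ s3)))

theorem DPE_step (s : ℕ → Bool) (st : List Bool) (n : ℕ) : evStep s st n =
    if n = 0 then false :: st else if n = 1 then true :: st else
    if n = 2 then (st.getD 1 false || st.getD 0 false) :: st.drop 2 else
    if n = 3 then (st.getD 1 false && st.getD 0 false) :: st.drop 2 else s (n - 8) :: st := by
  match n with
  | 0 => rfl
  | 1 => rfl
  | 2 => rfl
  | 3 => rfl
  | n + 4 =>
    rw [if_neg (by omega), if_neg (by omega), if_neg (by omega), if_neg (by omega)]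
    rfl

theorem DPE : DPE_stmt := by
  show Primrec (fun z : SP × List ℕ =>
    (z.2.foldl (fun st n => evStep (sttN z.1.1.1 z.1.1.2.1 z.1.1.2.2 z.1.2.1 z.1.2.2.1 z.1.2.2.2.1
      z.1.2.2.2.2) st n) []).getD 0 false)
  refine (Primrec.list_getD false).comp ?_ (Primrec.const 0)
  refine Primrec.list_foldl (h := fun (z : SP × List ℕ) (p : List Bool × ℕ) =>
    evStep (sttN z.1.1.1 z.1.1.2.1 z.1.1.2.2 z.1.2.1 z.1.2.2.1 z.1.2.2.2.1 z.1.2.2.2.2) p.1 p.2)
    Primrec.snd (Primrec.const []) ?_
  show Primrec (fun q : (SP × List ℕ) × (List Bool × ℕ) =>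
    evStep (sttN q.1.1.1.1 q.1.1.1.2.1 q.1.1.1.2.2 q.1.1.2.1 q.1.1.2.2.1 q.1.1.2.2.2.1
      q.1.1.2.2.2.2) q.2.1 q.2.2)
  have hst : Primrec fun q : (SP × List ℕ) × (List Bool × ℕ) => q.2.1 :=
    Primrec.fst.comp Primrec.snd
  have hn : Primrec fun q : (SP × List ℕ) × (List Bool × ℕ) => q.2.2 :=
    Primrec.snd.comp Primrec.snd
  have hsp : Primrec fun q : (SP × List ℕ) × (List Bool × ℕ) => q.1.1 :=
    Primrec.fst.comp Primrec.fst
  have hA := Primrec.fst.comp hsp
  have hB := Primrec.snd.comp hsp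
  have hA2 := Primrec.snd.comp hA
  have hB2 := Primrec.snd.comp hB
  have hB3 := Primrec.snd.comp hB2
  have hs := DPE_stt (Primrec.fst.comp hA) (Primrec.fst.comp hA2) (Primrec.snd.comp hA2)
    (Primrec.fst.comp hB) (Primrec.fst.comp hB2) (Primrec.fst.comp hB3) (Primrec.snd.comp hB3)
    (Primrec.nat_sub.comp hn (Primrec.const 8))
  have hc : ∀ c : ℕ, PrimrecPred fun q : (SP × List ℕ) × (List Bool × ℕ) => q.2.2 = c :=
    fun c => Primrec.eq.comp hn (Primrec.const c)
  have h0 := (Primrec.list_getD false).comp hst (Primrec.const 0)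
  have h1 := (Primrec.list_getD false).comp hst (Primrec.const 1)
  have hd := Primrec.list_drop.comp (Primrec.const 2) hst
  refine (Primrec.ite (hc 0) (Primrec.list_cons.comp (Primrec.const false) hst)
    (Primrec.ite (hc 1) (Primrec.list_cons.comp (Primrec.const true) hst)
    (Primrec.ite (hc 2) (Primrec.list_cons.comp (Primrec.or.comp h1 h0) hd)
    (Primrec.ite (hc 3) (Primrec.list_cons.comp (Primrec.and.comp h1 h0) hd)
    (Primrec.list_cons.comp hs hst))))).of_eq ?_
  intro q
  exact (DPE_step _ _ _).symm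

end PF
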